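import Pool.Agent.H998.LT.Defs2

/-!
# Absolute convergence almost everywhere for sets of bounded density
-/

set_option autoImplicit false

open MeasureTheory Set
open scoped ENNReal

namespace Pool.Agent.H784.LT

open Pool.Agent.H998.LT

/-- the open Euclidean unit ball -/
def Bl {d : ℕ} (x : Fin d → ℝ) : Set (Fin d → ℝ) := {y | ∑ i, (y i - x i) ^ 2 < 1}

theorem Bl_open {d : ℕ} (x : Fin d → ℝ) : IsOpen (Bl x) := by
  unfold Bl
  exact isOpen_lt (by fun_prop) continuous_const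

theorem Bl_comm {d : ℕ} (x y : Fin d → ℝ) : y ∈ Bl x ↔ x ∈ Bl y := by
  unfold Bl
  rw [mem_ofPred_eq, mem_ofPred_eq]
  have : ∑ i, (y i - x i) ^ 2 = ∑ i, (x i - y i) ^ 2 :=
    Finset.sum_congr rfl fun i _ => by ring
  rw [this]

theorem Bl_self {d : ℕ} (x : Fin d → ℝ) : x ∈ Bl x := by
  unfold Bl
  rw [mem_ofPred_eq]
  simp

/-- countably many balls cover the space -/
theorem Bl_cover {d : ℕ} (y : Fin d → ℝ) :
    ∃ n, y ∈ Bl (TopologicalSpace.denseSeq (Fin d → ℝ) n) := by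
  obtain ⟨x, hx, n, rfl⟩ := (TopologicalSpace.denseRange_denseSeq (Fin d → ℝ)).inter_open_nonempty
    (Bl y) (Bl_open y) ⟨y, Bl_self y⟩
  exact ⟨n, (Bl_comm _ _).2 hx⟩

theorem Bl_count {d : ℕ} {Λ : Set (Fin d → ℝ)} (h : BddDensity Λ) : Λ.Countable := by
  obtain ⟨M, hM⟩ := h
  have h1 : Λ = ⋃ n, Λ ∩ Bl (TopologicalSpace.denseSeq (Fin d → ℝ) n) := by
    rw [← inter_iUnion]
    refine (inter_eq_left.2 fun y _ => ?_).symm
    exact mem_iUnion.2 (Bl_cover y)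
  rw [h1]
  refine countable_iUnion fun n => Set.Finite.countable ?_
  refine Set.finite_of_encard_le_coe (k := M) (hM _)

/-- the number of the points of a translate of the set in a ball -/
theorem Bl_sum {d : ℕ} {Λ : Set (Fin d → ℝ)} {M : ℕ}
    (hM : ∀ x : Fin d → ℝ, (Λ ∩ {y | ∑ i, (y i - x i) ^ 2 < 1}).encard ≤ M) (x y : Fin d → ℝ) :
    ∑' a : Λ, (Bl x).indicator (fun _ => (1 : ℝ≥0∞)) (y + a) ≤ M := by
  have h1 : ∑' a : Λ, (Bl x).indicator (fun _ => (1 : ℝ≥0∞)) (y + a) =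
      ∑' a : (Λ ∩ Bl (x - y) : Set (Fin d → ℝ)), (1 : ℝ≥0∞) := by
    rw [tsum_subtype Λ (fun a => (Bl x).indicator (fun _ => (1 : ℝ≥0∞)) (y + a)),
      tsum_subtype (Λ ∩ Bl (x - y)) (fun _ => (1 : ℝ≥0∞))]
    refine tsum_congr fun a => ?_
    have h2 : y + a ∈ Bl x ↔ a ∈ Bl (x - y) := by
      unfold Bl
      rw [mem_ofPred_eq, mem_ofPred_eq]
      have : ∑ i, ((y + a) i - x i) ^ 2 = ∑ i, (a i - (x - y) i) ^ 2 :=
        Finset.sum_congr rfl fun i _ => by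
          rw [Pi.add_apply, Pi.sub_apply]
          ring
      rw [this]
    by_cases ha : a ∈ Λ
    · rw [indicator_of_mem ha]
      by_cases hb : y + a ∈ Bl x
      · have hc : a ∈ Λ ∩ Bl (x - y) := ⟨ha, h2.1 hb⟩
        rw [indicator_of_mem hb, indicator_of_mem hc]
      · rw [indicator_of_notMem hb, indicator_of_notMem fun h => hb (h2.2 h.2)]
    · rw [indicator_of_notMem ha, indicator_of_notMem fun h => ha h.1]
  rw [h1, ENNReal.tsum_set_const, mul_one]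
  have h3 := hM (x - y)
  have h4 : ((Λ ∩ Bl (x - y)).encard : ℝ≥0∞) ≤ ((M : ℕ∞) : ℝ≥0∞) :=
    ENat.toENNReal_le.2 h3
  simpa using h4

theorem Bl_int {d : ℕ} {f : (Fin d → ℝ) → ℝ} (hf : Integrable f) {Λ : Set (Fin d → ℝ)}
    (hΛ : Λ.Countable) {M : ℕ}
    (hM : ∀ x : Fin d → ℝ, (Λ ∩ {y | ∑ i, (y i - x i) ^ 2 < 1}).encard ≤ M) (x : Fin d → ℝ) :
    ∫⁻ y in Bl x, ∑' a : Λ, ‖f (y - a)‖ₑ ≤ M * ∫⁻ y, ‖f y‖ₑ := by
  have : Countable Λ := hΛ.to_subtype
  have hB : MeasurableSet (Bl x) := (Bl_open x).measurableSet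
  calc ∫⁻ y in Bl x, ∑' a : Λ, ‖f (y - a)‖ₑ = ∑' a : Λ, ∫⁻ y in Bl x, ‖f (y - a)‖ₑ :=
        lintegral_tsum fun a => (hf.comp_sub_right (a : Fin d → ℝ)).1.enorm.restrict
    _ = ∑' a : Λ, ∫⁻ y, (Bl x).indicator (fun _ => (1 : ℝ≥0∞)) (y + a) * ‖f y‖ₑ := by
        refine tsum_congr fun a => ?_
        rw [← lintegral_indicator hB, ← lintegral_add_right_eq_self _ (a : Fin d → ℝ)]
        refine lintegral_congr fun y => ?_
        by_cases h : y + a ∈ Bl x
        · rw [indicator_of_mem h, indicator_of_mem h, one_mul, add_sub_cancel_right]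
        · rw [indicator_of_notMem h, indicator_of_notMem h, zero_mul]
    _ = ∫⁻ y, ∑' a : Λ, (Bl x).indicator (fun _ => (1 : ℝ≥0∞)) (y + a) * ‖f y‖ₑ := by
        rw [lintegral_tsum]
        intro a
        refine AEMeasurable.mul ?_ hf.1.enorm
        refine Measurable.aemeasurable ?_
        exact (measurable_const.indicator hB).comp (measurable_add_const (a : Fin d → ℝ))
    _ ≤ ∫⁻ y, M * ‖f y‖ₑ := by
        refine lintegral_mono fun y => ?_
        rw [ENNReal.tsum_mul_right]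
        exact mul_le_mul_left (Bl_sum hM x y) _
    _ = M * ∫⁻ y, ‖f y‖ₑ := by
        rw [lintegral_const_mul' _ _ (ENNReal.natCast_ne_top M)]

/-- absolute convergence almost everywhere -/
theorem t_abs : S_abs := by
  intro d f hf Λ hΛ
  have hc := Bl_count hΛ
  obtain ⟨M, hM⟩ := hΛ
  have : Countable Λ := hc.to_subtype
  have h1 : ∀ n, ∀ᵐ x : Fin d → ℝ, x ∈ Bl (TopologicalSpace.denseSeq (Fin d → ℝ) n) →
      ∑' a : Λ, ‖f (x - a)‖ₑ < ∞ := by
    intro n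
    rw [← ae_restrict_iff' (Bl_open _).measurableSet]
    refine ae_lt_top' ?_ ?_
    · exact AEMeasurable.tsum fun a =>
        (hf.comp_sub_right (a : Fin d → ℝ)).1.enorm.restrict
    · refine ne_top_of_le_ne_top ?_ (Bl_int hf hc hM _)
      exact ENNReal.mul_ne_top (ENNReal.natCast_ne_top M) hf.2.ne
  filter_upwards [ae_all_iff.2 h1] with x hx
  obtain ⟨n, hn⟩ := Bl_cover x
  have h2 := hx n hn
  have h3 : Summable fun a : Λ => ‖f (x - a)‖₊ := ENNReal.tsum_coe_ne_top_iff_summable.1 h2.ne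
  exact NNReal.summable_coe.2 h3

end Pool.Agent.H784.LT
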